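import Pool.Agent.W770.KP.Stm

/-! Subtask KP-AVG (14441) of project KP (owner helper770). -/

set_option autoImplicit false

open scoped Classical

namespace Pool.Agent.W138.KP

open Pool.Agent.W770.KP

theorem card_nonzero {F E : Type} [Field F] [Fintype F] [AddCommGroup E] [Module F E] [Fintype E]
    (k : ℕ) (W : Submodule F E) (hW : Module.finrank F W = k) :
    ((((Finset.univ : Finset E).filter (fun v => v ≠ 0)).filter (fun v => v ∈ W)).card : ℝ) =
      (Fintype.card F : ℝ) ^ k - 1 := by
  have h1 : ((Finset.univ : Finset E).filter (fun v => v ∈ W)).card = Fintype.card F ^ k := by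
    have h2 : Fintype.card W = Fintype.card F ^ k := by
      rw [Module.card_eq_pow_finrank (K := F) (V := W), hW]
    rw [← h2, Fintype.card_subtype]
  have h3 : ((Finset.univ : Finset E).filter (fun v => v ≠ 0)).filter (fun v => v ∈ W) =
      ((Finset.univ : Finset E).filter (fun v => v ∈ W)).erase 0 := by
    ext v
    simp
  have h4 : (0 : E) ∈ (Finset.univ : Finset E).filter (fun v => v ∈ W) := by
    simp
  have h5 : 1 ≤ Fintype.card F ^ k := Nat.one_le_pow _ _ Fintype.card_pos
  rw [h3, Finset.card_erase_of_mem h4, h1, Nat.cast_sub h5]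
  push_cast
  ring

theorem avg (h : S_GC) : S_AVG := by
  intro F E _ _ _ _ _ k hk Ψ β hβ
  have hq : (1 : ℝ) < (Fintype.card F : ℝ) := by exact_mod_cast Fintype.one_lt_card (α := F)
  have hqk : 0 < (Fintype.card F : ℝ) ^ k - 1 := by
    have := one_lt_pow₀ hq (by omega : k ≠ 0)
    linarith
  have hqN : 0 ≤ (Fintype.card F : ℝ) ^ (Module.finrank F E) - 1 := by
    have := one_le_pow₀ hq.le (n := Module.finrank F E)
    linarith
  have key : ((Fintype.card F : ℝ) ^ k - 1) * ∑ W ∈ Gr F E k, Ψ W =
      ∑ v ∈ (Finset.univ : Finset E).filter (fun v => v ≠ 0),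
        ∑ W ∈ (Gr F E k).filter (fun W => v ∈ W), Ψ W := by
    simp_rw [Finset.sum_filter (fun W : Submodule F E => _ ∈ W)]
    rw [Finset.sum_comm, Finset.mul_sum]
    apply Finset.sum_congr rfl
    intro W hW
    rw [← Finset.sum_filter, Finset.sum_const, nsmul_eq_mul,
      card_nonzero k W (Finset.mem_filter.1 hW).2]
  have h1 : ((Fintype.card F : ℝ) ^ k - 1) * ∑ W ∈ Gr F E k, Ψ W ≤
      ∑ v ∈ (Finset.univ : Finset E).filter (fun v => v ≠ 0),
        (((Gr F E k).filter (fun W => v ∈ W)).card : ℝ) * β v := by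
    rw [key]
    exact Finset.sum_le_sum fun v hv => hβ v (Finset.mem_filter.1 hv).2
  have h2 : (∑ v ∈ (Finset.univ : Finset E).filter (fun v => v ≠ 0),
        (((Gr F E k).filter (fun W => v ∈ W)).card : ℝ) * β v) *
        ((Fintype.card F : ℝ) ^ (Module.finrank F E) - 1) =
      ((Fintype.card F : ℝ) ^ k - 1) * (((Gr F E k).card : ℝ) *
        ∑ v ∈ (Finset.univ : Finset E).filter (fun v => v ≠ 0), β v) := by
    rw [Finset.sum_mul, Finset.mul_sum, Finset.mul_sum]
    apply Finset.sum_congr rfl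
    intro v hv
    have := h F E k hk v (Finset.mem_filter.1 hv).2
    calc (((Gr F E k).filter (fun W => v ∈ W)).card : ℝ) * β v *
          ((Fintype.card F : ℝ) ^ (Module.finrank F E) - 1)
        = ((((Gr F E k).filter (fun W => v ∈ W)).card : ℝ) *
          ((Fintype.card F : ℝ) ^ (Module.finrank F E) - 1)) * β v := by ring
      _ = _ := by rw [this]; ring
  have h3 := mul_le_mul_of_nonneg_right h1 hqN
  rw [h2] at h3
  have h4 : ((Fintype.card F : ℝ) ^ k - 1) * ((∑ W ∈ Gr F E k, Ψ W) *
      ((Fintype.card F : ℝ) ^ (Module.finrank F E) - 1)) ≤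
      ((Fintype.card F : ℝ) ^ k - 1) * (((Gr F E k).card : ℝ) *
        ∑ v ∈ (Finset.univ : Finset E).filter (fun v => v ≠ 0), β v) := by
    refine le_trans (le_of_eq ?_) h3
    ring
  exact le_of_mul_le_mul_left h4 hqk

end Pool.Agent.W138.KP
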